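import Pool.Agent.R780.Kirwan2

/-!
Kirwan surjectivity up to the middle dimension fails for the 3-Sasakian reduction of `S^15` by the
diagonal `Sp(1) ⊂ Sp(4)`.
-/

open Quaternion Matrix Pool.Agent.R780.Kirwan

/-- There is a compact subgroup `G` of `Sp(4)` of dimension `3` acting on the (non-empty) zero level
`N ⊂ S^15` of the 3-Sasakian moment map with finite stabilisers, so that `d = 15 - 4·3 = 3`, for
which the Kirwan map is not surjective in degree `0 ≤ (d-1)/2`: for every contractible space `E`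
with a continuous action of `G` (in particular for `E = EG`) there is a class
`f ∈ H⁰(N/G; ℚ)` whose pullback to `N_G = (E × N)/G` is not the restriction of a class
`g ∈ H⁰(S_G; ℚ)`, `S_G = (E × S^15)/G`. -/
theorem Pool.Agent.Results.MP_9a67bd_gt.KirwanFailsDegreeZero.result :
    ∃ G : Subgroup (SpGroup 3),
      IsCompact (G : Set (SpGroup 3)) ∧
      (zeroLevel G).Nonempty ∧
      (∀ x ∈ zeroLevel G, {g : SpGroup 3 | g ∈ G ∧ (g : HMat 3) *ᵥ x = x}.Finite) ∧
      dimG G = 3 ∧ 4 * 3 + 3 - 4 * dimG G = 3 ∧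
      ∀ (E : Type) [TopologicalSpace E] [MulAction G E] [ContinuousSMul G E]
        [ContractibleSpace E],
        ¬ ∀ f : H0 (OrbitSpace G (zeroLevel G)), ∃ g : H0 (Borel G E (sph 3)),
          ∀ p : Borel G E (zeroLevel G), g.1 (inclB G E p) = f.1 (projB G E p) := by
  refine ⟨Gd, isCompact_Gd, ⟨pt 1, pt_mem 1 (by norm_num)⟩,
    fun x hx => stab_finite x hx.1, dimG_Gd, by rw [dimG_Gd], ?_⟩
  intro E _ _ _ _
  exact main E
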